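import Pool.Agent.Lib.Warren46.Bezout

set_option autoImplicit false

/-! A bound for the number of bounded cells cut out by a real polynomial. -/

namespace Pool.Agent.Warren46

open MvPolynomial

variable {ι : Type} [Fintype ι] [DecidableEq ι]

/-- The derivative of a polynomial function. -/
noncomputable def gradL (P : MvPolynomial ι ℝ) (x : ι → ℝ) : (ι → ℝ) →L[ℝ] ℝ :=
  ∑ j, eval x (pderiv j P) • ContinuousLinearMap.proj j

omit [DecidableEq ι] in
lemma gradL_apply (P : MvPolynomial ι ℝ) (x w : ι → ℝ) :
    gradL P x w = ∑ j, eval x (pderiv j P) * w j := by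
  simp [gradL, ContinuousLinearMap.sum_apply]

lemma hasFDerivAt_eval (P : MvPolynomial ι ℝ) (x : ι → ℝ) :
    HasFDerivAt (fun x : ι → ℝ => eval x P) (gradL P x) x := by
  induction P using MvPolynomial.induction_on with
  | C a =>
    have h : gradL (C a : MvPolynomial ι ℝ) x = 0 := by
      ext w; simp [gradL_apply]
    rw [h]
    simpa using hasFDerivAt_const a x
  | add p q hp hq =>
    have h : gradL (p + q) x = gradL p x + gradL q x := by
      ext w; simp [gradL_apply, add_mul, Finset.sum_add_distrib]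
    rw [h]
    simpa using hp.fun_add hq
  | mul_X p i hp =>
    have h : gradL (p * X i) x = eval x p • (ContinuousLinearMap.proj i : (ι → ℝ) →L[ℝ] ℝ) +
        x i • gradL p x := by
      ext w
      simp only [gradL_apply, pderiv_mul, map_add, map_mul, eval_X, pderiv_X,
        ContinuousLinearMap.add_apply, ContinuousLinearMap.smul_apply,
        ContinuousLinearMap.proj_apply, smul_eq_mul, Finset.mul_sum]
      have h1 : ∀ j, (eval x (pderiv j p) * x i + eval x p *
          eval x (Pi.single (M := fun _ => MvPolynomial ι ℝ) j 1 i)) * w j =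
          x i * (eval x (pderiv j p) * w j) + eval x p * (if i = j then w j else 0) := by
        intro j
        by_cases hij : i = j
        · subst hij; simp; ring
        · rw [Pi.single_eq_of_ne hij]; simp [hij]; ring
      simp only [h1, Finset.sum_add_distrib, ← Finset.mul_sum]
      simp
      ring
    rw [h]
    have h2 : HasFDerivAt (fun x : ι → ℝ => x i)
        (ContinuousLinearMap.proj i : (ι → ℝ) →L[ℝ] ℝ) x :=
      (ContinuousLinearMap.proj i : (ι → ℝ) →L[ℝ] ℝ).hasFDerivAt
    simpa using hp.fun_mul h2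

omit [DecidableEq ι] in
lemma degreeOf_pderiv_le (P : MvPolynomial ι ℝ) (D : ℕ) (hD : ∀ j, degreeOf j P ≤ D) (i j : ι) :
    degreeOf j (pderiv i P) ≤ D := by
  classical
  rw [degreeOf_le_iff]
  intro m hm
  rw [mem_support_iff, coeff_pderiv] at hm
  have h1 : coeff (m + Finsupp.single i 1) P ≠ 0 := fun h => hm (by rw [h, zero_mul])
  have h2 := degreeOf_le_iff.mp (hD j) _ (mem_support_iff.mpr h1)
  simp only [Finsupp.coe_add, Pi.add_apply] at h2
  omega

/-- The number of bounded cells cut out by a polynomial `Q` whose degree in each variable is at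
most `D` is at most `(N D + 1) ^ N`. -/
theorem card_cells {K : Type} [Fintype K] (Q : MvPolynomial ι ℝ) (D : ℕ)
    (hD : ∀ j, degreeOf j Q ≤ D) (S : K → Set (ι → ℝ)) (hne : ∀ k, (S k).Nonempty)
    (hopen : ∀ k, IsOpen (S k)) (hbd : ∀ k, Bornology.IsBounded (S k))
    (hdisj : ∀ k l, k ≠ l → Disjoint (S k) (S l)) (hQ : ∀ k, ∀ x ∈ S k, eval x Q ≠ 0)
    (hcl : ∀ k, ∀ x ∈ closure (S k), eval x Q ≠ 0 → x ∈ S k) :
    Fintype.card K ≤ (Fintype.card ι * D + 1) ^ Fintype.card ι := by
  classical
  set Ψ : (ι → ℝ) → (ι → ℝ) := fun x j => -2 * eval x (pderiv j Q) / eval x Q with hΨ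
  have hΨd : ∀ x, eval x Q ≠ 0 → DifferentiableAt ℝ Ψ x := by
    intro x hx
    rw [differentiableAt_pi]
    intro j
    have h1 : DifferentiableAt ℝ (fun y : ι → ℝ => -2 * eval y (pderiv j Q)) x :=
      (hasFDerivAt_eval (pderiv j Q) x).differentiableAt.const_mul (-2)
    have h2 : DifferentiableAt ℝ (fun y : ι → ℝ => eval y Q) x :=
      (hasFDerivAt_eval Q x).differentiableAt
    have h3 : DifferentiableAt ℝ (fun y : ι → ℝ => -2 * eval y (pderiv j Q) / eval y Q) x := by
      simp only [div_eq_mul_inv]
      exact h1.fun_mul (h2.fun_inv hx)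
    exact h3
  -- Sard
  set s : Set (ι → ℝ) := {x | eval x Q ≠ 0 ∧ (fderiv ℝ Ψ x).det = 0} with hs
  have hnull : MeasureTheory.volume (Ψ '' s) = 0 :=
    MeasureTheory.addHaar_image_eq_zero_of_det_fderivWithin_eq_zero MeasureTheory.volume
      (f' := fun x => fderiv ℝ Ψ x)
      (fun x hx => (hΨd x hx.1).hasFDerivAt.hasFDerivWithinAt) (fun x hx => hx.2)
  obtain ⟨v, hv⟩ : ∃ v, v ∉ Ψ '' s := by
    by_contra hcon
    push Not at hcon
    have huniv : Ψ '' s = Set.univ := Set.eq_univ_of_forall hcon
    rw [huniv] at hnull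
    exact isOpen_univ.measure_ne_zero MeasureTheory.volume Set.univ_nonempty hnull
  -- critical points
  set lin : (ι → ℝ) →L[ℝ] ℝ := ∑ j, v j • ContinuousLinearMap.proj j with hlin
  have hlin_apply : ∀ x, lin x = ∑ j, v j * x j := by
    intro x; simp [hlin, ContinuousLinearMap.sum_apply]
  set g : (ι → ℝ) → ℝ := fun x => (eval x Q) ^ 2 * Real.exp (lin x) with hg
  have hgd : ∀ x, HasFDerivAt g ((eval x Q) ^ 2 • (Real.exp (lin x) • lin) +
      Real.exp (lin x) • ((2 * eval x Q) • gradL Q x)) x := by
    intro x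
    have h1 := (hasFDerivAt_eval Q x).pow 2
    have h2 : HasFDerivAt (fun x => Real.exp (lin x)) (Real.exp (lin x) • lin) x :=
      (lin.hasFDerivAt).exp
    have h3 := h1.mul h2
    refine h3.congr_fderiv ?_
    simp
  have hgc : Continuous g := continuous_iff_continuousAt.mpr fun x => (hgd x).continuousAt
  have hcrit : ∀ k, ∃ x ∈ S k, IsLocalMax g x := by
    intro k
    have hcomp : IsCompact (closure (S k)) :=
      Metric.isCompact_of_isClosed_isBounded isClosed_closure (hbd k).closure
    obtain ⟨x, hx, hmax⟩ := hcomp.exists_isMaxOn (hne k).closure hgc.continuousOn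
    obtain ⟨y, hy⟩ := hne k
    have hgy : 0 < g y := by
      have := hQ k y hy
      simp only [hg]; positivity
    have hgx : 0 < g x := lt_of_lt_of_le hgy (hmax (subset_closure hy))
    have hQx : eval x Q ≠ 0 := by
      intro h0
      simp only [hg, h0] at hgx
      simp at hgx
    have hxS := hcl k x hx hQx
    refine ⟨x, hxS, ?_⟩
    have hnhds : S k ∈ nhds x := (hopen k).mem_nhds hxS
    exact Filter.mem_of_superset hnhds fun z hz => hmax (subset_closure hz)
  choose x hxS hxmax using hcrit
  set E : ι → MvPolynomial ι ℝ := fun j => C 2 * pderiv j Q + C (v j) * Q with hE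
  have hE0 : ∀ k j, eval (x k) (E j) = 0 := by
    intro k j
    have h1 := (hxmax k).hasFDerivAt_eq_zero (hgd (x k))
    have h2 := congrArg (fun L : (ι → ℝ) →L[ℝ] ℝ => L (Pi.single j 1)) h1
    simp only [ContinuousLinearMap.add_apply, ContinuousLinearMap.smul_apply, smul_eq_mul,
      hlin_apply, gradL_apply, ContinuousLinearMap.zero_apply] at h2
    have hQk := hQ k (x k) (hxS k)
    have hexp : Real.exp (∑ j, v j * x k j) ≠ 0 := (Real.exp_pos _).ne'
    have s1 : ∑ i, v i * (Pi.single j 1 : ι → ℝ) i = v j := by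
      rw [Finset.sum_eq_single j]
      · simp
      · intro i _ hi; simp [hi]
      · intro h; exact absurd (Finset.mem_univ _) h
    have s2 : ∑ i, eval (x k) (pderiv i Q) * (Pi.single j 1 : ι → ℝ) i =
        eval (x k) (pderiv j Q) := by
      rw [Finset.sum_eq_single j]
      · simp
      · intro i _ hi; simp [hi]
      · intro h; exact absurd (Finset.mem_univ _) h
    rw [s1, s2] at h2
    simp only [hE, map_add, map_mul, eval_C]
    have h3 : (eval (x k) Q * Real.exp (∑ j, v j * x k j)) *
        (2 * eval (x k) (pderiv j Q) + v j * eval (x k) Q) = 0 := by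
      linear_combination h2
    exact (mul_eq_zero.mp h3).resolve_left (mul_ne_zero hQk hexp)
  have hΨx : ∀ k, Ψ (x k) = v := by
    intro k
    funext j
    have h1 := hE0 k j
    have hQk := hQ k (x k) (hxS k)
    simp only [hE, map_add, map_mul, eval_C] at h1
    simp only [hΨ]
    rw [div_eq_iff hQk]
    linarith
  have hdet : ∀ k, (fderiv ℝ Ψ (x k)).det ≠ 0 := by
    intro k h0
    exact hv ⟨x k, ⟨hQ k _ (hxS k), h0⟩, hΨx k⟩
  have hgradE : ∀ k j, ∀ w, gradL (E j) (x k) w =
      -(eval (x k) Q) * (fderiv ℝ Ψ (x k) w) j := by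
    intro k j w
    have hQk := hQ k (x k) (hxS k)
    have h1 := hasFDerivAt_eval (E j) (x k)
    have h2 := (hΨd (x k) hQk).hasFDerivAt
    have h3 : HasFDerivAt (fun y => Ψ y j)
        ((ContinuousLinearMap.proj j : (ι → ℝ) →L[ℝ] ℝ).comp (fderiv ℝ Ψ (x k))) (x k) :=
      (hasFDerivAt_pi'.mp h2) j
    have h4 := (hasFDerivAt_eval Q (x k)).mul (h3.const_sub (v j))
    have hev : (fun y => eval y Q * (v j - Ψ y j)) =ᶠ[nhds (x k)] (fun y => eval y (E j)) := by
      have hcont : ContinuousAt (fun y => eval y Q) (x k) := (hasFDerivAt_eval Q (x k)).continuousAt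
      filter_upwards [hcont.eventually_ne hQk] with y hy
      simp only [hE, hΨ, map_add, map_mul, eval_C]
      field_simp
      ring
    have h5 := h4.congr_of_eventuallyEq hev.symm
    have h6 := h1.unique h5
    rw [h6]
    simp only [ContinuousLinearMap.add_apply, ContinuousLinearMap.smul_apply, smul_eq_mul,
      ContinuousLinearMap.neg_apply, ContinuousLinearMap.comp_apply,
      ContinuousLinearMap.proj_apply]
    rw [congrFun (hΨx k) j]
    ring
  -- apply the Bezout bound
  have hxinj : Function.Injective x := by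
    intro k l hkl
    by_contra hne'
    have := Set.disjoint_left.mp (hdisj k l hne') (hxS k)
    exact this (hkl ▸ hxS l)
  have hbz := bezout E D (fun i j => by
      simp only [hE]
      refine le_trans (degreeOf_add_le _ _ _) (max_le ?_ ?_)
      · exact le_trans (degreeOf_C_mul_le _ _ _) (degreeOf_pderiv_le Q D hD i j)
      · exact le_trans (degreeOf_C_mul_le _ _ _) (hD j))
    (Finset.univ.image x)
    (fun z hz i => by
      obtain ⟨k, _, rfl⟩ := Finset.mem_image.mp hz
      exact hE0 k i)
    (fun z hz y => by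
      obtain ⟨k, _, rfl⟩ := Finset.mem_image.mp hz
      have hQk := hQ k (x k) (hxS k)
      have hsurj : Function.Surjective (fderiv ℝ Ψ (x k)) := by
        have := (LinearMap.equivOfDetNeZero (fderiv ℝ Ψ (x k) : (ι → ℝ) →ₗ[ℝ] (ι → ℝ))
          (hdet k)).surjective
        exact this
      obtain ⟨w, hw⟩ := hsurj (-(eval (x k) Q)⁻¹ • y)
      refine ⟨w, fun i => ?_⟩
      have h1 : HasDerivAt (fun t : ℝ => x k + t • w) w 0 := by
        simpa using ((hasDerivAt_id (0 : ℝ)).smul_const w).const_add (x k)
      have h2 := hasFDerivAt_eval (E i) (x k + (0 : ℝ) • w)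
      have h3 := h2.comp_hasDerivAt (0 : ℝ) h1
      have h4 : gradL (E i) (x k + (0 : ℝ) • w) w = y i := by
        rw [zero_smul, add_zero, hgradE, hw]
        simp only [Pi.smul_apply, smul_eq_mul]
        field_simp
      rw [h4] at h3
      exact h3)
  rwa [Finset.card_image_of_injective _ hxinj, Finset.card_univ] at hbz

end Pool.Agent.Warren46
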