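import Mathlib

set_option autoImplicit false

/-! An elementary bound for the number of nondegenerate zeros of a real polynomial system. -/

namespace Pool.Agent.Warren46

open MvPolynomial

variable {ι : Type} [Fintype ι] [DecidableEq ι]

omit [Fintype ι] [DecidableEq ι] in
/-- Interpolation polynomials on a finite set of points. -/
lemma exists_interp (Z : Finset (ι → ℝ)) (z : ι → ℝ) :
    ∃ h : MvPolynomial ι ℝ, eval z h = 1 ∧ ∀ z' ∈ Z, z' ≠ z → eval z' h = 0 := by
  classical
  have hq : ∀ z' : ι → ℝ, ∃ q : MvPolynomial ι ℝ, eval z q = 1 ∧ (z' ≠ z → eval z' q = 0) := by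
    intro z'
    by_cases hzz : z' = z
    · exact ⟨1, by simp, fun h => absurd hzz h⟩
    · obtain ⟨j, hj⟩ := Function.ne_iff.mp hzz
      refine ⟨C ((z j - z' j)⁻¹) * (X j - C (z' j)), ?_, fun _ => by simp⟩
      simp only [map_mul, map_sub, eval_C, eval_X]
      exact inv_mul_cancel₀ (sub_ne_zero.mpr (fun h => hj h.symm))
  choose q hq1 hq2 using hq
  refine ⟨∏ z' ∈ Z, q z', ?_, ?_⟩
  · rw [map_prod]
    exact Finset.prod_eq_one fun z' _ => hq1 z'
  · intro z' hz' hne
    rw [map_prod]
    exact Finset.prod_eq_zero hz' (hq2 z' hne)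

/-- Restriction of a polynomial to the line `z + t v`. -/
noncomputable def lineHom (z v : ι → ℝ) : MvPolynomial ι ℝ →ₐ[ℝ] Polynomial ℝ :=
  aeval (fun j => Polynomial.C (z j) + Polynomial.C (v j) * Polynomial.X)

omit [Fintype ι] [DecidableEq ι] in
lemma lineHom_eval (z v : ι → ℝ) (p : MvPolynomial ι ℝ) (t : ℝ) :
    (lineHom z v p).eval t = eval (z + t • v) p := by
  unfold lineHom
  induction p using MvPolynomial.induction_on with
  | C a => simp
  | add p q hp hq => simp only [map_add, Polynomial.eval_add, hp, hq]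
  | mul_X p i hp =>
    simp only [map_mul, Polynomial.eval_mul, hp, aeval_X, Polynomial.eval_add, Polynomial.eval_C,
      Polynomial.eval_X, eval_X, Pi.add_apply, Pi.smul_apply, smul_eq_mul]
    ring

/-- The linear map producing the auxiliary polynomials. -/
noncomputable def auxMap (f : ι → MvPolynomial ι ℝ) (h : (ι → ℝ) → MvPolynomial ι ℝ)
    (Z : Finset (ι → ℝ)) (M : ℕ) : (Z × (ι → Fin (M + 1)) → ℝ) →ₗ[ℝ] MvPolynomial ι ℝ where
  toFun c := ∑ x, c x • (h x.1 * ∏ i, f i ^ (x.2 i : ℕ))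
  map_add' c d := by simp only [Pi.add_apply, add_smul, Finset.sum_add_distrib]
  map_smul' r c := by
    simp only [Pi.smul_apply, smul_eq_mul, mul_smul, Finset.smul_sum, RingHom.id_apply]

lemma auxMap_injective (f : ι → MvPolynomial ι ℝ) (h : (ι → ℝ) → MvPolynomial ι ℝ)
    (Z : Finset (ι → ℝ)) (M : ℕ)
    (hh1 : ∀ z ∈ Z, eval z (h z) = 1) (hh2 : ∀ z ∈ Z, ∀ z' ∈ Z, z' ≠ z → eval z (h z') = 0)
    (hz : ∀ z ∈ Z, ∀ i, eval z (f i) = 0)
    (hnd : ∀ z ∈ Z, ∀ y : ι → ℝ, ∃ v : ι → ℝ, ∀ i,
      HasDerivAt (fun t : ℝ => eval (z + t • v) (f i)) (y i) 0)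
    (c : Z × (ι → Fin (M + 1)) → ℝ) (hc : auxMap f h Z M c = 0) : c = 0 := by
  classical
  by_contra hne
  obtain ⟨x1, hx1⟩ := Function.ne_iff.mp hne
  set S : Finset (Z × (ι → Fin (M + 1))) := Finset.univ.filter (fun x => c x ≠ 0) with hS
  have hSne : S.Nonempty := ⟨x1, by simpa [hS] using hx1⟩
  obtain ⟨x0, hx0S, hx0min⟩ := S.exists_min_image (fun x => ∑ i, (x.2 i : ℕ)) hSne
  set μ : ℕ := ∑ i, (x0.2 i : ℕ) with hμ
  have hx0 : c x0 ≠ 0 := by simpa [hS] using hx0S
  obtain ⟨z0, a0⟩ := x0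
  -- the key polynomial identity
  have key : ∀ y : ι → ℝ, ∑ a : ι → Fin (M + 1),
      (if ∑ i, (a i : ℕ) = μ then c (z0, a) else 0) * ∏ i, y i ^ (a i : ℕ) = 0 := by
    intro y
    obtain ⟨v, hv⟩ := hnd z0 z0.2 y
    have hg : ∀ i, ∃ g : Polynomial ℝ, lineHom (z0 : ι → ℝ) v (f i) = Polynomial.X * g ∧
        g.eval 0 = y i := by
      intro i
      have h0 : (lineHom (z0 : ι → ℝ) v (f i)).coeff 0 = 0 := by
        rw [Polynomial.coeff_zero_eq_eval_zero, lineHom_eval]
        simpa using hz z0 z0.2 i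
      obtain ⟨g, hg⟩ := Polynomial.X_dvd_iff.mpr h0
      refine ⟨g, hg, ?_⟩
      have hd : HasDerivAt (fun t : ℝ => (lineHom (z0 : ι → ℝ) v (f i)).eval t) (y i) 0 := by
        have := hv i
        simpa only [lineHom_eval] using this
      have hd2 := (lineHom (z0 : ι → ℝ) v (f i)).hasDerivAt 0
      have := hd.unique hd2
      rw [this, hg]
      simp
    choose g hg1 hg2 using hg
    have h1 : lineHom (z0 : ι → ℝ) v (auxMap f h Z M c) = 0 := by rw [hc, map_zero]
    have h2 : lineHom (z0 : ι → ℝ) v (auxMap f h Z M c) = Polynomial.X ^ μ *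
        ∑ x : Z × (ι → Fin (M + 1)), c x • (lineHom (z0 : ι → ℝ) v (h x.1) *
          (Polynomial.X ^ (∑ i, (x.2 i : ℕ) - μ) * ∏ i, g i ^ (x.2 i : ℕ))) := by
      unfold auxMap
      simp only [LinearMap.coe_mk, AddHom.coe_mk, map_sum, map_smul, map_mul, map_prod, map_pow]
      rw [Finset.mul_sum]
      refine Finset.sum_congr rfl fun x _ => ?_
      by_cases hx : c x = 0
      · simp [hx]
      · have hle : μ ≤ ∑ i, (x.2 i : ℕ) := hx0min x (by simpa [hS] using hx)
        rw [mul_smul_comm]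
        congr 1
        have : ∏ i, lineHom (z0 : ι → ℝ) v (f i) ^ (x.2 i : ℕ) =
            Polynomial.X ^ μ * (Polynomial.X ^ (∑ i, (x.2 i : ℕ) - μ) *
              ∏ i, g i ^ (x.2 i : ℕ)) := by
          simp only [hg1, mul_pow, Finset.prod_mul_distrib, Finset.prod_pow_eq_pow_sum]
          rw [← mul_assoc, ← pow_add]
          congr 2
          omega
        rw [this]
        ring
    rw [h2] at h1
    have h3 := (mul_eq_zero.mp h1).resolve_left (pow_ne_zero _ Polynomial.X_ne_zero)
    have h4 := congrArg (Polynomial.eval 0) h3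
    rw [Polynomial.eval_finset_sum, Polynomial.eval_zero] at h4
    refine Eq.trans ?_ h4
    rw [Fintype.sum_prod_type, Finset.sum_eq_single z0]
    · refine Finset.sum_congr rfl fun a _ => ?_
      simp only [Polynomial.eval_smul, Polynomial.eval_mul, Polynomial.eval_pow,
        Polynomial.eval_X, Polynomial.eval_prod, hg2, smul_eq_mul, lineHom_eval, zero_smul,
        add_zero, hh1 z0 z0.2, one_mul]
      by_cases hx : c (z0, a) = 0
      · simp [hx]
      · have hle : μ ≤ ∑ i, (a i : ℕ) := hx0min (z0, a) (by simpa [hS] using hx)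
        by_cases heq : ∑ i, (a i : ℕ) = μ
        · simp [heq]
        · have : ∑ i, (a i : ℕ) - μ ≠ 0 := by omega
          simp [heq, this]
    · intro z' _ hz'
      refine Finset.sum_eq_zero fun a _ => ?_
      simp only [Polynomial.eval_smul, Polynomial.eval_mul, lineHom_eval, zero_smul,
        add_zero]
      rw [hh2 z0 z0.2 z' z'.2 (fun h => hz' (Subtype.ext h))]
      simp
    · intro h; exact absurd (Finset.mem_univ _) h
  -- the polynomial vanishes identically
  set P : MvPolynomial ι ℝ := ∑ a : ι → Fin (M + 1),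
    monomial (Finsupp.equivFunOnFinite.symm (fun i => (a i : ℕ)))
      (if ∑ i, (a i : ℕ) = μ then c (z0, a) else 0) with hP
  have hP0 : P = 0 := by
    apply MvPolynomial.funext
    intro y
    rw [map_zero, hP, map_sum]
    refine Eq.trans ?_ (key y)
    refine Finset.sum_congr rfl fun a _ => ?_
    rw [eval_monomial]
    congr 1
    rw [Finsupp.prod_fintype]
    · rfl
    · intro i; exact pow_zero _
  have hco := congrArg (coeff (Finsupp.equivFunOnFinite.symm (fun i => (a0 i : ℕ)))) hP0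
  rw [hP, coeff_sum, coeff_zero] at hco
  rw [Finset.sum_eq_single a0] at hco
  · rw [coeff_monomial, if_pos rfl, if_pos hμ.symm] at hco
    exact hx0 hco
  · intro b _ hb
    rw [coeff_monomial, if_neg]
    intro heq
    apply hb
    have := Finsupp.equivFunOnFinite.symm.injective heq
    funext i
    exact Fin.ext (congrFun this i)
  · intro h; exact absurd (Finset.mem_univ _) h

/-- Elementary Bezout type bound: a real polynomial system in `N` variables with all degrees in
every variable at most `D` has at most `(N D + 1) ^ N` nondegenerate zeros. -/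
theorem bezout (f : ι → MvPolynomial ι ℝ) (D : ℕ) (hD : ∀ i j, degreeOf j (f i) ≤ D)
    (Z : Finset (ι → ℝ)) (hz : ∀ z ∈ Z, ∀ i, eval z (f i) = 0)
    (hnd : ∀ z ∈ Z, ∀ y : ι → ℝ, ∃ v : ι → ℝ, ∀ i,
      HasDerivAt (fun t : ℝ => eval (z + t • v) (f i)) (y i) 0) :
    Z.card ≤ (Fintype.card ι * D + 1) ^ Fintype.card ι := by
  classical
  choose h hh1 hh2 using exists_interp Z
  set D0 : ℕ := Z.sup (fun z => Finset.univ.sup (fun j => degreeOf j (h z))) with hD0
  have hD0le : ∀ z ∈ Z, ∀ j, degreeOf j (h z) ≤ D0 := by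
    intro z hzZ j
    refine le_trans ?_ (Finset.le_sup (f := fun z => Finset.univ.sup
      (fun j => degreeOf j (h z))) hzZ)
    exact Finset.le_sup (f := fun j => degreeOf j (h z)) (Finset.mem_univ j)
  set M : ℕ := D0 with hM
  set N : ℕ := Fintype.card ι with hN
  set E : ℕ := D0 + N * (D * M) with hE
  -- the coefficient map
  let T : MvPolynomial ι ℝ →ₗ[ℝ] ((ι → Fin (E + 1)) → ℝ) :=
    { toFun := fun p b => coeff (Finsupp.equivFunOnFinite.symm (fun i => (b i : ℕ))) p
      map_add' := fun p q => by funext b; simp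
      map_smul' := fun r p => by funext b; simp }
  have hdeg : ∀ c : Z × (ι → Fin (M + 1)) → ℝ, ∀ j, degreeOf j (auxMap f h Z M c) ≤ E := by
    intro c j
    unfold auxMap
    simp only [LinearMap.coe_mk, AddHom.coe_mk]
    refine le_trans (degreeOf_sum_le _ _ _) (Finset.sup_le fun x _ => ?_)
    rw [MvPolynomial.smul_eq_C_mul]
    refine le_trans (degreeOf_C_mul_le _ _ _) (le_trans (degreeOf_mul_le _ _ _) ?_)
    refine add_le_add (hD0le x.1 x.1.2 j) ?_
    refine le_trans (degreeOf_prod_le _ _ _) ?_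
    have : ∀ i ∈ (Finset.univ : Finset ι), degreeOf j (f i ^ (x.2 i : ℕ)) ≤ D * M := by
      intro i _
      refine le_trans (degreeOf_pow_le _ _ _) ?_
      have h1 := hD i j
      have h2 : (x.2 i : ℕ) ≤ M := Nat.lt_succ_iff.mp (x.2 i).2
      calc (x.2 i : ℕ) * degreeOf j (f i) ≤ M * D := Nat.mul_le_mul h2 h1
        _ = D * M := Nat.mul_comm _ _
    refine le_trans (Finset.sum_le_card_nsmul _ _ _ this) ?_
    rw [Finset.card_univ, smul_eq_mul]
  have hinj : Function.Injective (T ∘ₗ auxMap f h Z M) := by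
    rw [← LinearMap.ker_eq_bot, LinearMap.ker_eq_bot']
    intro c hc
    apply auxMap_injective f h Z M (fun z _ => hh1 z)
      (fun z hzZ z' _ hne => hh2 z' z hzZ (Ne.symm hne)) hz hnd
    ext m
    rw [coeff_zero]
    by_cases hm : ∀ i, m i ≤ E
    · have h1 := congrFun hc (fun i => ⟨m i, Nat.lt_succ_of_le (hm i)⟩)
      have h2 : (Finsupp.equivFunOnFinite.symm (fun i => m i) : ι →₀ ℕ) = m := by
        ext i; rfl
      simp only [LinearMap.comp_apply, Pi.zero_apply] at h1
      change coeff (Finsupp.equivFunOnFinite.symm (fun i => m i)) (auxMap f h Z M c) = 0 at h1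
      rwa [h2] at h1
    · push Not at hm
      obtain ⟨i, hi⟩ := hm
      by_contra hne
      have := degreeOf_le_iff.mp (hdeg c i) m (mem_support_iff.mpr hne)
      omega
  have hfin := LinearMap.finrank_le_finrank_of_injective hinj
  rw [Module.finrank_fintype_fun_eq_card, Module.finrank_fintype_fun_eq_card] at hfin
  simp only [Fintype.card_prod, Fintype.card_coe, Fintype.card_fun, Fintype.card_fin] at hfin
  have hE' : E + 1 ≤ (N * D + 1) * (M + 1) := by
    rw [hE, hM]
    nlinarith [Nat.zero_le (N * D), Nat.zero_le D0]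
  have h1 : Z.card * (M + 1) ^ N ≤ (N * D + 1) ^ N * (M + 1) ^ N := by
    calc Z.card * (M + 1) ^ N ≤ (E + 1) ^ N := hfin
      _ ≤ ((N * D + 1) * (M + 1)) ^ N := Nat.pow_le_pow_left hE' N
      _ = (N * D + 1) ^ N * (M + 1) ^ N := mul_pow _ _ _
  exact Nat.le_of_mul_le_mul_right h1 (by positivity)

end Pool.Agent.Warren46
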