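import Mathlib

set_option autoImplicit false

/-! The Borsuk-Ulam theorem for maps from the 2-sphere to the plane. -/

namespace Pool.Agent.Warren46

open Complex

/-- Radial retraction of the plane onto the closed unit disc. -/
noncomputable def retr (z : ℂ) : ℂ := ((max 1 ‖z‖ : ℝ) : ℂ)⁻¹ * z

lemma continuous_retr : Continuous retr := by
  unfold retr
  refine Continuous.mul (Continuous.inv₀ ?_ ?_) continuous_id
  · exact continuous_ofReal.comp (continuous_const.max continuous_norm)
  · intro z h
    have h1 : (max 1 ‖z‖ : ℝ) = 0 := by exact_mod_cast h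
    have h2 : (1 : ℝ) ≤ max 1 ‖z‖ := le_max_left _ _
    linarith

lemma retr_of_norm_one (z : ℂ) (hz : ‖z‖ = 1) : retr z = z := by
  unfold retr
  rw [hz]
  simp

/-- The upper hemisphere. -/
noncomputable def hemi (z : ℂ) : Fin 3 → ℝ :=
  ![(retr z).re, (retr z).im, Real.sqrt (1 - ‖retr z‖ ^ 2)]

lemma continuous_hemi : Continuous hemi := by
  have h := continuous_retr
  refine continuous_pi fun i => ?_
  fin_cases i
  · exact continuous_re.comp h
  · exact continuous_im.comp h
  · exact Real.continuous_sqrt.comp (continuous_const.sub (h.norm.pow 2))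

lemma hemi_ne_zero (z : ℂ) : hemi z ≠ 0 := by
  intro h
  have h0 : (retr z).re = 0 := congrFun h 0
  have h1 : (retr z).im = 0 := congrFun h 1
  have h2 : Real.sqrt (1 - ‖retr z‖ ^ 2) = 0 := congrFun h 2
  have h3 : retr z = 0 := Complex.ext h0 h1
  rw [h3] at h2
  simp at h2

lemma hemi_neg (z : ℂ) (hz : ‖z‖ = 1) : hemi (-z) = -hemi z := by
  have hz' : ‖-z‖ = 1 := by rw [norm_neg, hz]
  funext i
  unfold hemi
  rw [retr_of_norm_one z hz, retr_of_norm_one (-z) hz', hz, hz']
  fin_cases i <;> simp

/-- Borsuk-Ulam in dimension two. -/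
theorem borsuk_ulam (f : (Fin 3 → ℝ) → ℂ) (hf : ContinuousOn f {x | x ≠ 0}) :
    ∃ x : Fin 3 → ℝ, x ≠ 0 ∧ f x = f (-x) := by
  by_contra hcon
  push Not at hcon
  set G : ℂ → ℂ := fun z => f (hemi z) - f (-hemi z) with hG
  have hGc : Continuous G := by
    have h1 : Continuous fun z => f (hemi z) :=
      hf.comp_continuous continuous_hemi hemi_ne_zero
    have h2 : Continuous fun z => f (-hemi z) :=
      hf.comp_continuous continuous_hemi.neg fun z => neg_ne_zero.mpr (hemi_ne_zero z)
    exact h1.sub h2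
  have hG0 : ∀ z, G z ≠ 0 := fun z => sub_ne_zero.mpr (hcon _ (hemi_ne_zero z))
  have hsc : IsSimplyConnected (Set.univ : Set ℂ) := by
    have : SimplyConnectedSpace (Set.univ : Set ℂ) := by
      have : ContractibleSpace (Set.univ : Set ℂ) :=
        (Homeomorph.Set.univ ℂ).toHomotopyEquiv.contractibleSpace
      infer_instance
    exact this
  obtain ⟨g, hgc, hg⟩ := exists_continuousOn_eqOn_exp_comp hsc isOpen_univ hGc.continuousOn
    (by rintro ⟨z, -, hz⟩; exact hG0 z hz)
  have hgcont : Continuous g := continuousOn_univ.mp hgc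
  have hexp : ∀ z, Complex.exp (g z) = G z := fun z => hg (Set.mem_univ z)
  set p : ℝ → ℂ := fun t => Complex.exp (t * Complex.I) with hp
  have hpn : ∀ t, ‖p t‖ = 1 := fun t => Complex.norm_exp_ofReal_mul_I t
  have hpc : Continuous p := by
    simp only [hp]
    fun_prop
  set κ : ℝ → ℂ := fun t => g (-p t) - g (p t) with hκ
  have hκc : Continuous κ := (hgcont.comp hpc.neg).sub (hgcont.comp hpc)
  have hκexp : ∀ t, Complex.exp (κ t) = -1 := by
    intro t
    simp only [hκ]
    rw [Complex.exp_sub, hexp, hexp]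
    have h1 : G (-p t) = - G (p t) := by
      simp only [hG]
      rw [hemi_neg _ (hpn t), neg_neg]
      ring
    rw [h1, neg_div, div_self (hG0 _)]
  have hκpi : κ Real.pi = - κ 0 := by
    simp only [hκ, hp]
    rw [Complex.exp_pi_mul_I]
    simp
  have him : ∃ t, (κ t).im = 0 := by
    have h1 : (κ Real.pi).im = -(κ 0).im := by rw [hκpi]; simp
    have hc : Continuous fun t => (κ t).im := Complex.continuous_im.comp hκc
    rcases le_total 0 (κ 0).im with h | h
    · obtain ⟨t, -, ht⟩ := intermediate_value_Icc' Real.pi_pos.le hc.continuousOn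
        (show (0 : ℝ) ∈ Set.Icc (κ Real.pi).im (κ 0).im from ⟨by rw [h1]; linarith, h⟩)
      exact ⟨t, ht⟩
    · obtain ⟨t, -, ht⟩ := intermediate_value_Icc Real.pi_pos.le hc.continuousOn
        (show (0 : ℝ) ∈ Set.Icc (κ 0).im (κ Real.pi).im from ⟨h, by rw [h1]; linarith⟩)
      exact ⟨t, ht⟩
  obtain ⟨t, ht⟩ := him
  have h2 := hκexp t
  have h3 : κ t = ((κ t).re : ℂ) := Complex.ext (by simp) (by simp [ht])
  rw [h3, ← Complex.ofReal_exp] at h2
  have h4 : Real.exp (κ t).re = -1 := by exact_mod_cast h2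
  have := Real.exp_pos (κ t).re
  linarith

end Pool.Agent.Warren46
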